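import Pool.Agent.Q173.AL.Main

/-!
# MP_855f4c_ag: the monodromy-weight conjecture from approximate laws

`Theory K Ω` is an `ℓ`-adic cohomology theory for the smooth proper varieties over the local field
`K` with its known properties `IsLocal q` (`N F = q F N`, Weil numbers, duality, Künneth formula).
For a variety `Y` let `totWeightMoment` be the sum of the `(w - j)²` over the eigenvalues of `F` on
all the `H^j(Y)` (`w` the weight), `totRankMoment = 2 ∑ k rank (N^k)`, and, for the monodromy
filtration `M` of `H^*(Y)`, `within M L` the number of the eigenvalues on the graded pieces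
`M_s / M_(s-1)` whose weight differs from the predicted one by at most `L`.
-/

set_option autoImplicit false

open Module

universe u v w

namespace Pool.Agent.Results.MP_855f4c_ag.ApproximateLaws

open Pool.Agent.H914 Pool.Agent.Y143 Pool.Agent.Y163.MW Pool.Agent.Y163.MW.Coh Pool.Agent.Q173.AL

section

variable {K : Type u} [Field K] {Ω : Type w} [Field Ω] [CharZero Ω]

/-- One variety, second moments: an error less than `(n + 1) b ^ n` on `X ^ (n + 1)` is allowed, where
`b` is the dimension of `H^*(X)`. -/
def MomentCriterion (T : Theory.{u, v, w} K Ω) (q : ℕ) : Prop :=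
  ∀ (X : SmVar.{u} K) (n : ℕ), (T.H (pow X n)).totWeightMoment q <
    (T.H (pow X n)).totRankMoment + (n + 1) * (finrank Ω (T.H X).V : ℤ) ^ n →
      ∀ m, (T.H X).MWPure q m

/-- One variety, numbers of eigenvalues: a proportion of more than
`(2 L + 1) / √(1 + (n + 1) / (2 b))` of eigenvalues on `X ^ (n + 1)` which have the predicted weight
up to an error `L` suffices. -/
def CountCriterion (T : Theory.{u, v, w} K Ω) (q : ℕ) : Prop :=
  ∀ (X : SmVar.{u} K) (n L : ℕ) (M : ℤ → Submodule Ω (T.H (pow X n)).V),
    IsMonodromyFiltrationOn ⊤ (T.H (pow X n)).N M →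
    (2 * L + 1) * (finrank Ω (T.H X).V : ℝ) ^ (n + 1) <
      (within (T.H (pow X n)) q M L : ℝ) * √(1 + ((n + 1 : ℕ) : ℝ) /
        (2 * (finrank Ω (T.H X).V : ℝ))) →
      ∀ m, (T.H X).MWPure q m

end

/-- **The monodromy-weight conjecture from approximate laws.** -/
theorem result {K : Type u} [Field K] {Ω : Type w} [Field Ω] [CharZero Ω] [IsAlgClosed Ω]
    {T : Theory.{u, v, w} K Ω} {q : ℕ} (hq : 1 < q) (hT : T.IsLocal q) :
    MomentCriterion T q ∧ CountCriterion T q ∧
      List.TFAE [
        ∀ X : SmVar.{u} K, 1 ≤ X.dim → ∀ m, (T.H X).MWPure q m,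
        SmallMoments T q,
        ManyNear T q] := by
  refine ⟨fun X n h => ?_, fun X n L M hM h => ?_, ?_⟩
  · by_contra hX
    exact absurd (moments_pow hT hq hX n) (not_le.2 h)
  · by_contra hX
    exact absurd (within_pow hT hq hX n L hM) (not_le.2 h)
  · tfae_have 1 → 2 := moments_of_pure hT hq
    tfae_have 2 → 1 := fun h X hd => pure_of_moments hT hq h X hd
    tfae_have 1 → 3 := near_of_pure hT hq
    tfae_have 3 → 1 := fun h X hd => pure_of_near hT hq h X hd
    tfae_finish

end Pool.Agent.Results.MP_855f4c_ag.ApproximateLaws
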