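import Pool.Agent.Q173.CP.Tate

/-!
# MP_855f4c_ag: Galois cohomology at the central points and the monodromy-weight conjecture

`K` is a local field with residue field with `q` elements, `C` is a class of smooth proper varieties
over `K` closed under products, such that the inertia group acts unipotently on their `ℓ`-adic
cohomology (for instance the class generated by the generic fibres of the projective semistable
schemes over the ring of integers), `T : PTheory C Ω` is their `ℓ`-adic cohomology with the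
Frobenius `F` and the logarithm `N` of the monodromy. For the representation `V = H^m(X)(r)` of the
Galois group of `K` the groups `H^i(K, V)` are the cohomology groups of the complex

  `V → V ⊕ V → V`,  `x ↦ ((F' - 1) x, N x)`,  `(a, b) ↦ N a - (q F' - 1) b`,  `F' = q ^ (-r) F`.

`Known T q E good` are the known properties: Frobenius weights, Poincare duality, Künneth formula, the
cohomology of a split Tate curve `E` and of varieties with good reduction (`good A`), and the theorem
of Honda and Tate: for every eigenvalue `α` of `F` on the cohomology of a member of `C` there is an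
abelian variety `A` over `K` with good reduction, such that `q ^ s / α` is an eigenvalue of `F` on the
cohomology of `A` for some `s`.

Deligne's conjecture implies that `H^m(Y)(r)` has no nonzero Galois invariants if `m < 2 r`, and that
`H^i(K, H^(2r-1)(Y)(r)) = 0` for all `i` (the targets of the local Abel-Jacobi maps vanish). We show
that these statements are equivalent to the conjecture, even if only the middle cohomology groups
`H^d(Y)(r)` of the varieties `Y` of odd dimension `d = 2 r - 1` are considered.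
-/

set_option autoImplicit false

open Module

universe u v w

namespace Pool.Agent.Results.MP_855f4c_ag.CentralPoints

open Pool.Agent.Y163.MW Pool.Agent.Y163.MW.Coh Pool.Agent.Q173.OG Pool.Agent.Q173.CP
  Pool.Agent.Q57.WM Pool.Agent.Q173.OS

section

variable {C : Type u} {Ω : Type w} [Field Ω] [CharZero Ω]

/-- The monodromy-weight conjecture for `X`. -/
def MW (T : PTheory.{u, v, w} C Ω) (q : ℕ) (X : C) : Prop := ∀ m, (T.H X).MWPure q m

/-- There are no invariant elements in the groups `H^m(Y)(r)`, `m < 2 r - B`. -/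
def NoTate (T : PTheory.{u, v, w} C Ω) (q B : ℕ) (Y : C) : Prop :=
  ∀ m r : ℕ, m + B < 2 * r → H0Zero (T.H Y) q m r

/-- `H^0(K, H^(2 r - 1)(Y)(r)) = 0` for all `r`. -/
def Central0 (T : PTheory.{u, v, w} C Ω) (q : ℕ) (Y : C) : Prop :=
  ∀ m r : ℕ, m + 1 = 2 * r → H0Zero (T.H Y) q m r

/-- `H^1(K, H^(2 r - 1)(Y)(r)) = 0` for all `r`. -/
def Central1 (T : PTheory.{u, v, w} C Ω) (q : ℕ) (Y : C) : Prop :=
  ∀ m r : ℕ, m + 1 = 2 * r → H1Zero (T.H Y) q m r

/-- `H^2(K, H^(2 r - 1)(Y)(r)) = 0` for all `r`. -/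
def Central2 (T : PTheory.{u, v, w} C Ω) (q : ℕ) (Y : C) : Prop :=
  ∀ m r : ℕ, m + 1 = 2 * r → H2Zero (T.H Y) q m r

/-- If the dimension `d = 2 r - 1` of `Y` is odd, then `H^1(K, H^d(Y)(r)) = 0`. -/
def Middle1 (T : PTheory.{u, v, w} C Ω) (q : ℕ) (Y : C) : Prop :=
  ∀ r : ℕ, T.dim Y + 1 = 2 * r → H1Zero (T.H Y) q (T.dim Y) r

/-- If the dimension `d = 2 r - 1` of `Y` is odd, then `H^0(K, H^d(Y)(r)) = 0`. -/
def Middle0 (T : PTheory.{u, v, w} C Ω) (q : ℕ) (Y : C) : Prop :=
  ∀ r : ℕ, T.dim Y + 1 = 2 * r → H0Zero (T.H Y) q (T.dim Y) r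

/-- All varieties. -/
def AllVarieties (T : PTheory.{u, v, w} C Ω) (q : ℕ) : Prop :=
  ((∀ X, MW T q X) ↔ ∀ Y, Middle1 T q Y) ∧ ((∀ X, MW T q X) ↔ ∀ Y, Middle0 T q Y) ∧
    ((∀ X, MW T q X) ↔ ∀ Y, Central1 T q Y) ∧ (∀ B, (∀ X, MW T q X) ↔ ∀ Y, NoTate T q B Y)

/-- One variety: if the conjecture for `X` holds above `k + 1`, it is equivalent to
`H^1(K, H^(2 r - 1)(Y)(r)) = 0` for all `r`, `Y = X × E^k × A`, where `A` is a partner of `X × E^k`
with good reduction, and to the absence of invariants in `H^m(Y)(r)`, `m < 2 r`, for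
`Y = X × X × A`, `A` a partner of `X × X`. -/
def OneVariety (T : PTheory.{u, v, w} C Ω) (q : ℕ) (E : C) (good : C → Prop) : Prop :=
  ∀ X : C,
    (∀ (k : ℕ) (A : C), (∀ m, WMAbove (T.H X) q m (k + 1)) → good A →
      IsPartner T q A (T.stk X E k) →
        (MW T q X ↔ Central1 T q (T.prod (T.stk X E k) A)) ∧
        (MW T q X ↔ Central0 T q (T.prod (T.stk X E k) A))) ∧
    (∀ A : C, good A → IsPartner T q A (T.prod X X) →
      (MW T q X ↔ NoTate T q 0 (T.prod (T.prod X X) A)))

/-- All the groups vanish if the conjecture holds. -/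
def Vanishing (T : PTheory.{u, v, w} C Ω) (q : ℕ) : Prop :=
  ∀ Y, MW T q Y → NoTate T q 0 Y ∧ Central0 T q Y ∧ Central1 T q Y ∧ Central2 T q Y

/-- Every variety has a partner. -/
def Partners (T : PTheory.{u, v, w} C Ω) (q : ℕ) (good : C → Prop) : Prop :=
  ∀ Y, ∃ A, good A ∧ IsPartner T q A Y

end

/-- **The monodromy-weight conjecture and Galois cohomology at the central points.** -/
theorem result {C : Type u} {Ω : Type w} [Field Ω] [CharZero Ω] [IsAlgClosed Ω]
    {T : PTheory.{u, v, w} C Ω} {q : ℕ} {E : C} {good : C → Prop} (hq : 1 < q)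
    (hK : Known T q E good) :
    AllVarieties T q ∧ OneVariety T q E good ∧ Vanishing T q ∧ Partners T q good := by
  have hT := hK.base
  have hq0 : (q : Ω) ≠ 0 := Nat.cast_ne_zero.2 (by omega)
  have hvan : Vanishing T q := by
    intro Y hY
    have h0 : NoTate T q 0 Y := fun m r hm => (h0Zero_iff hq0).2 (no_tate hq hT hY (by omega))
    have h0' : Central0 T q Y := fun m r hm => h0 m r (by omega)
    have h2 : Central2 T q Y := fun m r hm => h2_of_pure hq (hT.pre Y) hm (hY m)
    exact ⟨h0, h0', fun m r hm => h1_of hq (hT.pre Y) (h0' m r hm) (h2 m r hm), h2⟩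
  have h10 : ∀ Y, Central1 T q Y → Central0 T q Y :=
    fun Y h m r hm => h0_of_h1 (hT.pre Y) (h m r hm)
  have hpart : Partners T q good := fun Y => exists_partner hK hq Y
  have hall0 : (∀ Y, Middle0 T q Y) → ∀ X, MW T q X := by
    intro h X
    by_contra hX
    obtain ⟨l, j, α, wt, hv, hw, hj⟩ := bad_stk hK hq hX
    obtain ⟨A, b, -, m, r, hm, hx⟩ := central_of_vec hK hq hv hw hj
    obtain ⟨Y, r', hr', hy⟩ := mid_of_central hK hm hx
    exact (h0Zero_iff hq0).1 (h Y r' hr') hy
  have hmid : ∀ Y, Middle1 T q Y → Middle0 T q Y :=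
    fun Y h r hr => h0_of_h1 (hT.pre Y) (h r hr)
  refine ⟨⟨?_, ?_, ?_, ?_⟩, ?_, hvan, hpart⟩
  · exact ⟨fun h Y r hr => (hvan Y (h Y)).2.2.1 _ r hr, fun h => hall0 fun Y => hmid Y (h Y)⟩
  · exact ⟨fun h Y r hr => (hvan Y (h Y)).2.1 _ r hr, hall0⟩
  · exact ⟨fun h Y => (hvan Y (h Y)).2.2.1, fun h => hall0 fun Y r hr => h10 Y (h Y) _ r hr⟩
  · intro B
    constructor
    · intro h Y m r hm
      exact (hvan Y (h Y)).1 m r (by omega)
    · intro h X
      by_contra hX
      obtain ⟨A, hA, hp⟩ := hpart (T.prod X X)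
      obtain ⟨m, r, hm, hx⟩ := low_of_bad hK hq hA hp hX
      have h1 := vec_pw hK hx B
      rw [← pow_mul] at h1
      refine (h0Zero_iff hq0).1 (h _ ((B + 1) * m) (r * (B + 1)) ?_) h1
      nlinarith
  · intro X
    refine ⟨fun k A hk hA hp => ?_, fun A hA hp => ?_⟩
    · have hgo : MW T q X → MW T q (T.prod (T.stk X E k) A) := fun h =>
        pure_prod hq hT (pure_stk hq hT h hK.test.pure k)
          (pure_good hq hT (hK.goodRed A hA).trivial
            fun i α x hx h0 hF => (hK.goodRed A hA).pure i α ⟨x, hx, h0, hF⟩)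
      have hback : Central0 T q (T.prod (T.stk X E k) A) → MW T q X := by
        intro h
        by_contra hX
        obtain ⟨m, r, hm, hx⟩ := central_of_bad hK hq hA hp hk hX
        exact (h0Zero_iff hq0).1 (h m r hm) hx
      exact ⟨⟨fun h => (hvan _ (hgo h)).2.2.1, fun h => hback (h10 _ h)⟩,
        ⟨fun h => (hvan _ (hgo h)).2.1, hback⟩⟩
    · constructor
      · intro h
        exact (hvan _ (pure_prod hq hT (pure_prod hq hT h h)
          (pure_good hq hT (hK.goodRed A hA).trivial
            fun i α x hx h0 hF => (hK.goodRed A hA).pure i α ⟨x, hx, h0, hF⟩))).1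
      · intro h
        by_contra hX
        obtain ⟨m, r, hm, hx⟩ := low_of_bad hK hq hA hp hX
        exact (h0Zero_iff hq0).1 (h m r (by omega)) hx

end Pool.Agent.Results.MP_855f4c_ag.CentralPoints
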