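import Pool.Agent.Q57.WM.Fam

/-!
# MP_855f4c_ag: the ranks of the high powers of the monodromy operator, weights, slopes and Hodge
numbers

`X` is a smooth projective variety over a finite extension `K` of `ℚ_p` (for instance the generic
fibre of a projective semistable scheme) with residue field with `q` elements, and `m` is a degree such
that the Frobenius has the same rational characteristic polynomial on all `ℓ`-adic cohomology groups
and on the Hyodo-Kato cohomology group in every degree `j ≠ m` (for instance because the cohomology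
in these degrees is generated by algebraic cycles). The varieties `SmVar K` are schemes of Mathlib;
the cohomology theories `Theories` are data with the known properties `IsLocal` (for `X`).

For every cohomology theory `i` (`ℓ`-adic, for any `ℓ ≠ p`, or `p`-adic) and every `k ≥ 0` the sum of
the ranks of the powers `N ^ r`, `r > k`, on `H^m` is at most `∑_w (2 (w - m - k) - 1)^+`, the sum
being over the weights `w` of the eigenvalues of the Frobenius; this sum does not depend on the
theory, it is at most the corresponding sum for `2 λ`, `λ` the slopes, and this is at most the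
corresponding sum for the Hodge numbers. The first inequality is an equality exactly if the
monodromy-weight conjecture holds in the range above `k`.
-/

set_option autoImplicit false

open Module

universe u v w

namespace Pool.Agent.Results.MP_855f4c_ag.MajorizedMonodromy

open Pool.Agent.H914 Pool.Agent.Y163.MW Pool.Agent.Y143 Pool.Agent.Y163.MX Pool.Agent.Q57.WM

section

variable {K : Type u} [Field K] {Ω : Type w} [Field Ω] [CharZero Ω]

/-- For every theory and every `k` the inequalities
`∑_{r > k} rank (N ^ r) ≤ ∑_w (2 (w - m - k) - 1)^+ ≤ ∑_λ (2 (2 λ - m - k) - 1)^+ ≤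
∑_{a + b = m} (2 (a - b - k) - 1)^+ h^(a, b)`. -/
def Chain (T : Theories.{u, v, w} K Ω) (q : ℕ) (X : SmVar.{u} K) (m : ℕ) : Prop :=
  ∀ (i : Option T.ι) (k : ℕ), rankTail (T.H i X) m k ≤ weightTail (T.H i X) q m k ∧
    (weightTail (T.H i X) q m k : ℝ) ≤ slopeTail (T.H i X) T.val m k ∧
    slopeTail (T.H i X) T.val m k ≤ (hodgeTail m k (T.hodge X m) : ℝ)

/-- The monodromy-weight conjecture in the range above `k` means that the first and the second sum
are equal, the second sum is the same for all theories, and the range above `0` is the whole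
conjecture for `H^m`. -/
def Criterion (T : Theories.{u, v, w} K Ω) (q : ℕ) (X : SmVar.{u} K) (m : ℕ) : Prop :=
  (∀ (i : Option T.ι) (k : ℕ), WMAbove (T.H i X) q m k ↔
    rankTail (T.H i X) m k = weightTail (T.H i X) q m k) ∧
  (∀ (i i' : Option T.ι) (k : ℕ), weightTail (T.H i X) q m k = weightTail (T.H i' X) q m k) ∧
  ∀ i : Option T.ι, WMAbove (T.H i X) q m 0 ↔ (T.H i X).MWPure q m

/-- If the sum of the ranks of the powers `N ^ r`, `r > k`, is at least (and hence equal to)
`∑ (2 (a - b - k) - 1)^+ h^(a, b)`, then the monodromy-weight conjecture holds in the range above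
`k`; for `k = 0` it holds for `H^m`. -/
def Maximal (T : Theories.{u, v, w} K Ω) (q : ℕ) (X : SmVar.{u} K) (m : ℕ) : Prop :=
  ∀ i : Option T.ι,
    (∀ k, hodgeTail m k (T.hodge X m) ≤ rankTail (T.H i X) m k → WMAbove (T.H i X) q m k) ∧
    (hodgeTail m 0 (T.hodge X m) ≤ rankTail (T.H i X) m 0 → (T.H i X).MWPure q m)

/-- If the monodromy-weight conjecture holds (in the range above `k`) for one theory, then it holds
for another one if and only if the sums of the ranks of the powers of `N` are the same. -/
def Transfer (T : Theories.{u, v, w} K Ω) (q : ℕ) (X : SmVar.{u} K) (m : ℕ) : Prop :=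
  ∀ (i i' : Option T.ι) (k : ℕ), WMAbove (T.H i X) q m k →
    (WMAbove (T.H i' X) q m k ↔ rankTail (T.H i' X) m k = rankTail (T.H i X) m k)

end

/-- **Powers of the monodromy operator, weights, slopes and Hodge numbers.** -/
theorem result {K : Type u} [Field K] {Ω : Type w} [Field Ω] [CharZero Ω] [IsAlgClosed Ω]
    {T : Theories.{u, v, w} K Ω} {q : ℕ} (hq : 1 < q) (X : SmVar.{u} K) (hT : T.IsLocal q X) (m : ℕ)
    (hm : m ≤ 2 * X.dim) (hX : GoodOutside (fun i => T.H i X) (2 * X.dim) m) :
    Chain T q X m ∧ Criterion T q X m ∧ Maximal T q X m ∧ Transfer T q X m := by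
  obtain ⟨hrat, hsame⟩ := same_charP (fun i => hT.coh i) hm hT.zeta hX
  have hchain : Chain T q X m := by
    intro i k
    refine ⟨(tail_deg hq (hT.coh i) m k).1, weight_le_slope hq (hT.coh i) (hrat i) hT.val k, ?_⟩
    rw [slopeTail_congr (hT.coh i) (hT.coh none) (hsame i none)]
    exact slope_le_hodge (hT.polygons m) k
  have hcrit : Criterion T q X m :=
    ⟨fun i k => (tail_deg hq (hT.coh i) m k).2.symm, fun i i' k =>
      weightTail_congr hq (hT.coh i) (hT.coh i') (hsame i i') k,
      fun i => wmAbove_zero hq (hT.coh i) m⟩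
  have hmax : ∀ (i : Option T.ι) (k : ℕ), hodgeTail m k (T.hodge X m) ≤ rankTail (T.H i X) m k →
      WMAbove (T.H i X) q m k := by
    intro i k h
    rw [hcrit.1 i k]
    obtain ⟨h1, h2, h3⟩ := hchain i k
    have h4 : (weightTail (T.H i X) q m k : ℝ) ≤ (hodgeTail m k (T.hodge X m) : ℝ) := h2.trans h3
    have h5 : weightTail (T.H i X) q m k ≤ hodgeTail m k (T.hodge X m) := by exact_mod_cast h4
    omega
  refine ⟨hchain, hcrit, fun i => ⟨hmax i, fun h => (hcrit.2.2 i).1 (hmax i 0 h)⟩, ?_⟩
  intro i i' k h
  rw [hcrit.1 i' k, ← hcrit.2.1 i i' k, ← (hcrit.1 i k).1 h]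

end Pool.Agent.Results.MP_855f4c_ag.MajorizedMonodromy
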