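import Pool.Agent.Q173.OS.Main

/-!
# MP_855f4c_ag: one-sided bounds for the weights of the inertia invariants

`K` is a local field of characteristic `0` (or any local field) with residue field with `q` elements;
`Theory K Ω` is an `ℓ`-adic cohomology theory for the smooth proper varieties `X` over `K` (schemes of
Mathlib), with the Frobenius `F` and the logarithm `N` of the monodromy, `IsLocal` are its known
properties (`N F = q F N`, `F` has Weil numbers, `H^m(X)` is self-dual up to a twist, Künneth formula).

Let `E` be a curve (or an abelian variety) with `N ≠ 0` on `H^1(E)`, for instance a Tate curve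
(`IsTest` lists the known properties which are used). The monodromy-weight conjecture for `X`, i.e.
an equality of two filtrations in all degrees, is equivalent to the inequality

  weights of `F` on `Ker (N | H^j(Y)) < j + n + 1`  for all `j`

for the one variety `Y = (X × E^k)^(n + 1)`, any `n ≥ 0`; here `k + 1` is a number such that the
conjecture for `X` is known above `k + 1` (for example `k + 1 = dim X`, because the weights of
`H^m(X)` are between `m - dim X` and `m + dim X`). For `n = 0` this is the inequality `≤ j` on
`X × E^k`, i.e. (for semistable models) the local invariant cycle theorem for `X × E^k`. The same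
holds for `Y = (X × X)^(n + 1)` and the bound `j + 2 (n + 1)`. So the conjecture for all the varieties over `K`
holds if and only if the weights of the inertia invariants of `H^j(Y)` are at most `j + o(dim Y)`.
-/

set_option autoImplicit false

open Module

universe u v w

namespace Pool.Agent.Results.MP_855f4c_ag.OneSidedBounds

open Pool.Agent.H914 Pool.Agent.Y143 Pool.Agent.Y163.MW Pool.Agent.Q57.WM Pool.Agent.Q173.OS

section

variable {K : Type u} [Field K] {Ω : Type w} [Field Ω] [CharZero Ω]

/-- One degree `m`: if the conjecture for `H^m(X)` is known above `k + 1` and the weights of `F` on the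
kernel of `N` on `H^((n + 1) (m + a))(Y)`, `Y = (X × E^k)^(n + 1)`, are at most
`(n + 1) (m + a) + n` for the `a ≤ k`, then the conjecture holds for `H^m(X)`. -/
def OneDegree (T : Theory.{u, v, w} K Ω) (q : ℕ) : Prop :=
  ∀ (X E : SmVar.{u} K), IsTest (T.H E) q → ∀ m k n : ℕ, WMAbove (T.H X) q m (k + 1) →
    (∀ a ≤ k, InvBoundDeg (T.H (pow (stack X E k) n)) q ((n + 1) * (m + a)) n) →
      (T.H X).MWPure q m

/-- One degree `m`, without an auxiliary variety: if the weights of `F` on the kernel of `N` on
`H^(2 m (n + 1))((X × X)^(n + 1))` are less than `2 m (n + 1) + 2 (n + 1)`, then the conjecture holds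
for `H^m(X)`. -/
def OneDegreeSquare (T : Theory.{u, v, w} K Ω) (q : ℕ) : Prop :=
  ∀ (X : SmVar.{u} K) (m n : ℕ),
    InvBoundDeg (T.H (pow (X.prod X) n)) q ((n + 1) * (m + m)) (2 * n + 1) →
      (T.H X).MWPure q m

/-- All degrees: the conjecture for `X` is equivalent to the bound `j + n` for
`Y = (X × E^k)^(n + 1)`, and then even the bound `j` holds for `Y` and all its analogues. -/
def TestCurve (T : Theory.{u, v, w} K Ω) (q : ℕ) : Prop :=
  ∀ (X E : SmVar.{u} K), IsTest (T.H E) q → ∀ k : ℕ, (∀ m, WMAbove (T.H X) q m (k + 1)) →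
    (∀ n : ℕ, (∀ m, (T.H X).MWPure q m) ↔ InvBound (T.H (pow (stack X E k) n)) q n) ∧
      ((∀ m, (T.H X).MWPure q m) → ∀ a n, InvBound (T.H (pow (stack X E a) n)) q 0)

/-- All degrees: the conjecture for `X` is equivalent to the bound `j + 2 n + 1` for
`Y = (X × X)^(n + 1)`. -/
def Squares (T : Theory.{u, v, w} K Ω) (q : ℕ) : Prop :=
  ∀ (X : SmVar.{u} K) (n : ℕ),
    (∀ m, (T.H X).MWPure q m) ↔ InvBound (T.H (pow (X.prod X) n)) q (2 * n + 1)

/-- All varieties: the conjecture holds for all `X` of dimension `≥ 1` over `K` if and only if the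
weights of the invariants of `H^j(Y)` are at most `j + ε dim Y` for `dim Y ≥ D(ε)`. -/
def Uniform (T : Theory.{u, v, w} K Ω) (q : ℕ) : Prop :=
  (∀ X : SmVar.{u} K, 1 ≤ X.dim → ∀ m, (T.H X).MWPure q m) ↔
    ∀ ε : ℝ, 0 < ε → ∃ D : ℕ, ∀ Y : SmVar.{u} K, D ≤ Y.dim → InvBound (T.H Y) q ⌊ε * Y.dim⌋

end

/-- **One-sided bounds and the monodromy-weight conjecture.** -/
theorem result {K : Type u} [Field K] {Ω : Type w} [Field Ω] [CharZero Ω] [IsAlgClosed Ω]
    {T : Theory.{u, v, w} K Ω} {q : ℕ} (hq : 1 < q) (hT : T.IsLocal q) :
    OneDegree T q ∧ OneDegreeSquare T q ∧ TestCurve T q ∧ Squares T q ∧ Uniform T q := by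
  refine ⟨fun X E hE m k n hk h => pure_of_stack hq hT hE hk n h,
    fun X m n h => pure_of_square hq hT n h, ?_, ?_, sublinear_iff hq hT⟩
  · intro X E hE k hk
    refine ⟨fun n => ⟨fun h => (bound_stack hq hT hE h k n).mono (by omega), fun h m => ?_⟩,
      fun h a n => bound_stack hq hT hE h a n⟩
    exact pure_of_stack hq hT hE (hk m) n fun a _ => h _
  · intro X n
    exact ⟨fun h => (bound_square hq hT h n).mono (by omega),
      fun h m => pure_of_square hq hT n (h _)⟩

end Pool.Agent.Results.MP_855f4c_ag.OneSidedBounds
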